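import Pool.Agent.Run7.h507.KR.Defs
import Pool.Agent.H713R2.Area

/-!
Project KR (helper507, MP_5cb574_an), piece BERG.
-/

set_option autoImplicit false

open MeasureTheory Metric Set Filter Topology

namespace Pool.Agent.Run7.h824.KR

open Pool.Agent.Run7.h507.KR Pool.Agent.H713R2

theorem co_eq (R : ℝ) (F : ℂ → ℂ) (hR : 0 < R) (hR1 : R < 1)
    (hF : DifferentiableOn ℂ F (ball 0 1)) (l : ℕ) : co F R l = tc F l * (R : ℂ) ^ l := by
  have h1 := integral_exp_tc hF hR hR1 l
  have hper : Function.Periodic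
      (fun θ : ℝ => Complex.exp (-(l * θ * Complex.I)) * F (circleMap 0 R θ)) (2 * Real.pi) := by
    intro θ
    have h2 : circleMap 0 R (θ + 2 * Real.pi) = circleMap 0 R θ := periodic_circleMap 0 R θ
    have h3 : Complex.exp (-(l * ((θ + 2 * Real.pi : ℝ) : ℂ) * Complex.I)) =
        Complex.exp (-(l * θ * Complex.I)) := by
      have : -(l * ((θ + 2 * Real.pi : ℝ) : ℂ) * Complex.I) =
          -(l * θ * Complex.I) - l * (2 * Real.pi * Complex.I) := by
        push_cast; ring
      rw [this, Complex.exp_sub, Complex.exp_nat_mul_two_pi_mul_I, div_one]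
    simp only
    rw [h2, h3]
  have h4 := hper.intervalIntegral_add_eq (-Real.pi) 0
  rw [show -Real.pi + 2 * Real.pi = Real.pi by ring, zero_add] at h4
  rw [h4] at h1
  unfold co
  have h5 : ∀ θ : ℝ, F (circleMap 0 R θ) *
      Complex.exp (-((((l : ℤ) : ℝ) * θ : ℝ) * Complex.I)) =
      Complex.exp (-(l * θ * Complex.I)) * F (circleMap 0 R θ) := by
    intro θ
    rw [mul_comm]
    congr 3
    push_cast
    ring
  simp only [h5]
  rw [h1]
  have hpi : (Real.pi : ℂ) ≠ 0 := by exact_mod_cast Real.pi_ne_zero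
  push_cast
  field_simp

theorem mom_diag (R : ℝ) (hR : 0 < R) (k : ℕ) :
    ∫ z in ball (0 : ℂ) R, (‖z‖ ^ (2 * k) : ℝ) = Real.pi * R ^ (2 * k + 2) / (k + 1) := by
  have h1 := integral_fun_norm_addHaar (volume : Measure ℂ)
    (fun y : ℝ => (Iio R).indicator (fun y => y ^ (2 * k)) y)
  have h2 : ∫ z in ball (0 : ℂ) R, (‖z‖ ^ (2 * k) : ℝ) =
      ∫ z : ℂ, (Iio R).indicator (fun y : ℝ => y ^ (2 * k)) ‖z‖ := by
    rw [← integral_indicator measurableSet_ball]
    refine integral_congr_ae (Eventually.of_forall fun z => ?_)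
    by_cases hz : z ∈ ball (0 : ℂ) R
    · have hz' : ‖z‖ ∈ Iio R := by simpa using hz
      simp only [indicator_of_mem hz, indicator_of_mem hz']
    · have hz' : ‖z‖ ∉ Iio R := by simpa using hz
      simp only [indicator_of_notMem hz, indicator_of_notMem hz']
  rw [h2, h1]
  have h3 : ∫ y in Ioi (0 : ℝ), y ^ (Module.finrank ℝ ℂ - 1) •
      (Iio R).indicator (fun y : ℝ => y ^ (2 * k)) y = R ^ (2 * k + 2) / (2 * k + 2) := by
    have h4 : ∀ y : ℝ, y ^ (Module.finrank ℝ ℂ - 1) •
        (Iio R).indicator (fun y : ℝ => y ^ (2 * k)) y =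
        (Iio R).indicator (fun y : ℝ => y ^ (2 * k + 1)) y := by
      intro y
      rw [Complex.finrank_real_complex]
      by_cases hy : y ∈ Iio R
      · simp only [indicator_of_mem hy, smul_eq_mul]
        ring
      · simp only [indicator_of_notMem hy, smul_zero]
    simp only [h4]
    rw [setIntegral_indicator measurableSet_Iio, Ioi_inter_Iio,
      ← integral_Ioc_eq_integral_Ioo, ← intervalIntegral.integral_of_le hR.le, integral_pow]
    simp
    ring
  rw [h3, Complex.finrank_real_complex]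
  have h5 : (volume : Measure ℂ).real (ball 0 1) = Real.pi := by
    simp [Measure.real, Complex.volume_ball]
  rw [h5, nsmul_eq_mul, smul_eq_mul]
  push_cast
  field_simp

theorem mom_off (R : ℝ) (k l : ℕ) (hkl : k ≠ l) :
    ∫ z in ball (0 : ℂ) R, z ^ k * (starRingEnd ℂ) z ^ l = 0 := by
  have hrot : ∀ u : Circle, ∫ z in ball (0 : ℂ) R, z ^ k * (starRingEnd ℂ) z ^ l =
      ((u : ℂ) ^ k * (starRingEnd ℂ) (u : ℂ) ^ l) *
        ∫ z in ball (0 : ℂ) R, z ^ k * (starRingEnd ℂ) z ^ l := by
    intro u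
    have hmp := (rotation u).measurePreserving
    have h1 := hmp.setIntegral_preimage_emb (rotation u).toHomeomorph.measurableEmbedding
      (fun z : ℂ => z ^ k * (starRingEnd ℂ) z ^ l) (ball 0 R)
    have h2 : (rotation u) ⁻¹' (ball (0 : ℂ) R) = ball 0 R := by
      ext z
      rw [mem_preimage, rotation_apply, mem_ball_zero_iff, mem_ball_zero_iff, norm_mul,
        Circle.norm_coe, one_mul]
    rw [h2] at h1
    rw [← integral_const_mul]
    refine h1.symm.trans ?_
    refine integral_congr_ae (Eventually.of_forall fun z => ?_)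
    simp only [rotation_apply, map_mul]
    ring
  have hkl' : ((k : ℝ) - l) ≠ 0 := sub_ne_zero.2 (by exact_mod_cast hkl)
  have h1 := hrot (Circle.exp (Real.pi / ((k : ℝ) - l)))
  have h2 : ((Circle.exp (Real.pi / ((k : ℝ) - l)) : Circle) : ℂ) ^ k *
      (starRingEnd ℂ) ((Circle.exp (Real.pi / ((k : ℝ) - l)) : Circle) : ℂ) ^ l = -1 := by
    rw [Circle.coe_exp, ← Complex.exp_conj, ← Complex.exp_nat_mul, ← Complex.exp_nat_mul,
      ← Complex.exp_add, ← Complex.exp_pi_mul_I]
    congr 1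
    rw [map_mul, Complex.conj_ofReal, Complex.conj_I]
    have h3 : ((k : ℂ) - l) ≠ 0 := by
      have := hkl'
      intro h
      apply this
      have h4 : (((k : ℝ) - l : ℝ) : ℂ) = 0 := by
        push_cast
        exact h
      exact_mod_cast h4
    push_cast
    field_simp
    ring
  rw [h2] at h1
  have h3 : (2 : ℂ) * ∫ z in ball (0 : ℂ) R, z ^ k * (starRingEnd ℂ) z ^ l = 0 := by
    linear_combination h1
  exact (mul_eq_zero.1 h3).resolve_left two_ne_zero

theorem int_ball (R : ℝ) (g : ℂ → ℂ) (hg : Continuous g) : IntegrableOn g (ball (0 : ℂ) R) :=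
  (hg.continuousOn.integrableOn_compact (isCompact_closedBall 0 R)).mono_set
    ball_subset_closedBall

theorem part (R : ℝ) (hR : 0 < R) (a : ℕ → ℂ) (N : ℕ) :
    ∫ z in ball (0 : ℂ) R, ‖∑ j ∈ Finset.range N, a j * z ^ j‖ ^ 2 =
      ∑ j ∈ Finset.range N, ‖a j‖ ^ 2 * (Real.pi * R ^ (2 * j + 2) / (j + 1)) := by
  have h1 : ∀ z : ℂ, ((‖∑ j ∈ Finset.range N, a j * z ^ j‖ ^ 2 : ℝ) : ℂ) =
      ∑ j ∈ Finset.range N, ∑ l ∈ Finset.range N,
        (a j * (starRingEnd ℂ) (a l)) * (z ^ j * (starRingEnd ℂ) z ^ l) := by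
    intro z
    rw [← Complex.normSq_eq_norm_sq, ← Complex.mul_conj, map_sum, Finset.sum_mul_sum]
    refine Finset.sum_congr rfl fun j _ => Finset.sum_congr rfl fun l _ => ?_
    rw [map_mul, map_pow]
    ring
  have h2 : ((∫ z in ball (0 : ℂ) R, ‖∑ j ∈ Finset.range N, a j * z ^ j‖ ^ 2 : ℝ) : ℂ) =
      ((∑ j ∈ Finset.range N, ‖a j‖ ^ 2 * (Real.pi * R ^ (2 * j + 2) / (j + 1)) : ℝ) : ℂ) := by
    rw [← integral_complex_ofReal]
    simp only [h1]
    rw [integral_finsetSum _ fun j _ => integrable_finsetSum _ fun l _ =>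
      (int_ball R _ (by fun_prop)).integrable.const_mul _]
    rw [Complex.ofReal_sum]
    refine Finset.sum_congr rfl fun j hj => ?_
    rw [integral_finsetSum _ fun l _ => (int_ball R _ (by fun_prop)).integrable.const_mul _]
    rw [Finset.sum_eq_single j]
    · rw [integral_const_mul]
      have h3 : ∀ z : ℂ, z ^ j * (starRingEnd ℂ) z ^ j = ((‖z‖ ^ (2 * j) : ℝ) : ℂ) := by
        intro z
        rw [← mul_pow, Complex.mul_conj, Complex.normSq_eq_norm_sq, ← Complex.ofReal_pow,
          ← pow_mul]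
      simp only [h3]
      rw [integral_complex_ofReal, mom_diag R hR j, Complex.mul_conj, Complex.normSq_eq_norm_sq]
      push_cast
      ring
    · intro l _ hl
      rw [integral_const_mul, mom_off R j l (Ne.symm hl), mul_zero]
    · intro h
      exact absurd hj h
  exact_mod_cast h2

theorem t_BERG : S_BERG := by
  intro R F hR hR1 hF
  have hsum : Summable fun j : ℕ => ‖tc F j‖ * R ^ j := by
    have h1 := hasSum_tc hF (x := (R : ℂ)) (by
      rw [mem_ball_zero_iff, Complex.norm_real, Real.norm_of_nonneg hR.le]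
      exact hR1)
    have h2 := h1.summable.norm
    refine h2.congr fun j => ?_
    rw [norm_mul, norm_pow, Complex.norm_real, Real.norm_of_nonneg hR.le]
  have hpt : ∀ j : ℕ, Real.pi * R ^ 2 * (‖co F R j‖ ^ 2 / (j + 1)) =
      ‖tc F j‖ ^ 2 * (Real.pi * R ^ (2 * j + 2) / (j + 1)) := by
    intro j
    rw [co_eq R F hR hR1 hF j, norm_mul, norm_pow, Complex.norm_real, Real.norm_of_nonneg hR.le,
      mul_pow, ← pow_mul, pow_add, mul_comm j 2]
    ring
  rw [hasSum_iff_tendsto_nat_of_nonneg (fun j => by positivity)]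
  have hpart : ∀ N : ℕ, ∑ j ∈ Finset.range N, Real.pi * R ^ 2 * (‖co F R j‖ ^ 2 / (j + 1)) =
      ∫ z in ball (0 : ℂ) R, ‖∑ j ∈ Finset.range N, tc F j * z ^ j‖ ^ 2 := by
    intro N
    rw [part R hR]
    exact Finset.sum_congr rfl fun j _ => hpt j
  simp only [hpart]
  refine tendsto_integral_of_dominated_convergence
    (fun _ => (∑' j : ℕ, ‖tc F j‖ * R ^ j) ^ 2) (fun N => ?_) ?_ (fun N => ?_) ?_
  · exact (by fun_prop : Continuous fun z : ℂ =>
      ‖∑ j ∈ Finset.range N, tc F j * z ^ j‖ ^ 2).aestronglyMeasurable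
  · exact integrableOn_const (by
      exact measure_ball_lt_top.ne)
  · rw [ae_restrict_iff' measurableSet_ball]
    refine Eventually.of_forall fun z hz => ?_
    rw [mem_ball_zero_iff] at hz
    rw [Real.norm_of_nonneg (by positivity)]
    refine pow_le_pow_left₀ (norm_nonneg _) ?_ 2
    calc ‖∑ j ∈ Finset.range N, tc F j * z ^ j‖ ≤ ∑ j ∈ Finset.range N, ‖tc F j * z ^ j‖ :=
          norm_sum_le _ _
      _ ≤ ∑ j ∈ Finset.range N, ‖tc F j‖ * R ^ j := by
          refine Finset.sum_le_sum fun j _ => ?_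
          rw [norm_mul, norm_pow]
          exact mul_le_mul_of_nonneg_left (pow_le_pow_left₀ (norm_nonneg _) hz.le j)
            (norm_nonneg _)
      _ ≤ _ := hsum.sum_le_tsum _ fun j _ => by positivity
  · rw [ae_restrict_iff' measurableSet_ball]
    refine Eventually.of_forall fun z hz => ?_
    rw [mem_ball_zero_iff] at hz
    have h1 := (hasSum_tc hF (x := z) (by
      rw [mem_ball_zero_iff]
      linarith)).tendsto_sum_nat
    exact (h1.norm).pow 2

end Pool.Agent.Run7.h824.KR
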